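import Pool.Agent.Helper74.WB.St

/-! # Project WB, module GCO: completeness of the gadget -/

set_option autoImplicit false

namespace Pool.Agent.Helper64.WB

open Pool.Agent.Helper74 Pool.Agent.Helper74.WB

theorem gco_w2 {W : Type} (g : W × List W) (σ τ : List (Lb W × Bool)) :
    Gr (w2 g) σ τ ↔ Gr (((.y g, false), true) :: (gt g).map (fun x => (x, false)))
      (rd (inv (gt g)) σ) τ := by
  unfold w2
  exact gr_mands _ _ _ _

theorem gco_end {W : Type} (g : W × List W) (σ : List (Lb W × Bool)) :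
    Gr ((gt g).map (fun x => (x, false))) σ (rd (gt g) σ) := by
  have h := (gr_mands (gt g) [] σ (rd (gt g) σ)).2 rfl
  rwa [List.append_nil] at h

theorem hGCO : StGCO := by
  intro W g σ hσ
  constructor
  · unfold wg
    refine (gr_append _ _ _ _).2 ⟨σ, ?_, (gr_append _ _ _ _).2 ⟨σ, ?_, ?_⟩⟩
    · unfold w1
      refine (gr_mand _ _ _ _).2 (gr_skips _ _ _ _ ?_ ((gr_mand _ _ _ _).2
        ((gr_opt _ _ _ _).2 (Or.inr ?_))))
      · intro a ha
        obtain ⟨x, -, rfl⟩ := List.mem_map.1 ha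
        rfl
      · exact ap_iv_ap (.y g, true) σ hσ
    · refine (gco_w2 g σ σ).2 ((gr_opt _ _ _ _).2 (Or.inr ?_))
      have h := gco_end g (rd (inv (gt g)) σ)
      rwa [rd_inv_rd _ _ hσ] at h
    · exact (gr_opt _ _ _ _).2 (Or.inr rfl)
  · have h1 : Red (ap (.y g, true) σ) := red_ap _ _ hσ
    have h2 : Red (rd (gt g) (ap (.y g, true) σ)) := red_rd _ _ h1
    unfold wg
    refine (gr_append _ _ _ _).2 ⟨rd (gt g) (ap (.y g, true) σ), ?_,
      (gr_append _ _ _ _).2 ⟨rd (gt g) σ, ?_, ?_⟩⟩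
    · unfold w1
      refine (gr_mand _ _ _ _).2 (gr_takes _ _ _ _ ((gr_mand _ _ _ _).2
        ((gr_opt _ _ _ _).2 (Or.inl ?_))))
      exact ap_ap_iv (.y g, true) _ h2
    · refine (gco_w2 g _ _).2 ((gr_opt _ _ _ _).2 (Or.inl ?_))
      rw [rd_rd_inv _ _ h1]
      have h3 : ap (Lb.y g, false) (ap (Lb.y g, true) σ) = σ := ap_iv_ap (Lb.y g, true) σ hσ
      rw [h3]
      exact gco_end g σ
    · refine (gr_opt _ _ _ _).2 (Or.inl ?_)
      have h4 : rd (gt g) σ = ap (.t g, false) (rd (gG g) σ) := by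
        unfold gt
        rw [rd_append]
        rfl
      rw [h4]
      exact ap_iv_ap (.t g, false) _ (red_rd _ _ hσ)

end Pool.Agent.Helper64.WB
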